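import Pool.Agent.Helper686_FJ.Tree3

/-!
# Actions on trees with a homomorphism injective on the stabilizers of the edges

`C` is any class of groups with the closure properties `ClosedE C` which contains the groups `F ⋊ ℤ` for
all free groups `F`. All this is published for the class of groups which satisfy the Full Farrell-Jones
Conjecture.

Let `G` act on a tree by automorphisms, without inversions, and let `π : G → Q` be a homomorphism to a
group `Q` in `C` which is injective on the stabilizer of each edge. Then `G` is in `C` if and only if the
stabilizers of all vertices are in `C`.

In terms of graphs of groups: the fundamental group of a graph of groups in `C` is in `C` if it has a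
homomorphism to a group in `C` which is injective on the edge groups. For instance, this applies to the
amalgams `A *_U B` where `U` is a retract of `B`, to the doubles `A *_U A`, and to the HNN extensions of `A`
with a stable letter which acts on the associated subgroup like an element of `A`. The actions on the
trees of Bass and Serre need not be acylindrical.

Outline of the proof. Let `N` be the kernel of `π` and `M` the subgroup generated by the groups `N_v`, `v` a
vertex. The quotient `N / M` is free, `M` is normal in `G`, and hence `G / M` is in `C`. The group `M` acts on the
tree with trivial stabilizers of edges and is generated by the `M_v`. A connected family of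
representatives of the orbits of `M` (which exists as the orbits of the vertices and edges form a tree)
gives a family of vertices `y` such that `M` is generated by the `M_y`. For each vertex `v` there is an
endomorphism of `M`, constructed from a non-abelian cocycle on the tree, which is injective on `M_v` and
trivial on the `M_w` for all `w` which are not in the orbit of `v`. Hence `M` is a regular product of the
nontrivial `M_y`, and the theorem on extensions by regular products (`R684`) applies: the kernel of the map to
the restricted direct product of the `M_y` acts freely on the tree, and an element which normalizes
`M_y ≠ 1` fixes `y`.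
-/

set_option autoImplicit false

namespace Pool.Agent.Results.MP_98022b_gt.EdgeInjectiveActions

open Pool.Agent.Helper686_FJ Pool.Agent.Y110.FJ Pool.Agent.R941.FJ

theorem result (C : ∀ (G : Type) [Group G], Prop) (hC : ClosedE C)
    (hF : ∀ (X : Type) (α : MulAut (FreeGroup X)),
      C (FreeGroup X ⋊[zpowersHom (MulAut (FreeGroup X)) α] Multiplicative ℤ))
    (G V Q : Type) [Group G] [Group Q] [MulAction G V] (T : SimpleGraph V) (hT : T.IsTree)
    (hadj : ∀ (g : G) (u v : V), T.Adj u v → T.Adj (g • u) (g • v))
    (hinv : ∀ (g : G) (u v : V), T.Adj u v → ¬ (g • u = v ∧ g • v = u))
    (π : G →* Q) (hQ : C Q)
    (hπ : ∀ u v : V, T.Adj u v → ∀ g : G, g • u = u → g • v = v → π g = 1 → g = 1) :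
    C G ↔ ∀ v : V, C (MulAction.stabilizer G v) :=
  ⟨fun h v => hC.base.of_injective _ _ (MulAction.stabilizer G v).subtype
      (MulAction.stabilizer G v).subtype_injective h,
    fun h => edge_tree hC hF ⟨hT, hadj, hinv⟩ h π hQ hπ⟩

end Pool.Agent.Results.MP_98022b_gt.EdgeInjectiveActions
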