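import Pool.Agent.Helper687_Borel.OutFJ
import Pool.Agent.Helper687_Borel.Surf

/-!
# Outer automorphism groups of iterated surface group extensions in Farrell-Jones classes
-/

set_option autoImplicit false

namespace Pool.Agent.Results.MP_98022b_gt.OuterTowers

open Pool.Agent.Y110.FJ (ClosedE)
open Pool.Agent.Helper687_Borel
open Pool.Agent.Y473.MC (Surf Gen)

/-- the free group of rank two and the closed oriented surface groups of genus at least two -/
def TwoOrSurf (S : Type) [Group S] : Prop :=
  Nonempty (S ≃* FreeGroup (Fin 2)) ∨ ∃ g, 2 ≤ g ∧ Nonempty (S ≃* Surf g)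

/-- iterated extensions of free groups of rank two and closed oriented surface groups of genus at least two -/
inductive PolyS : ∀ (N : Type) [Group N], Prop
  | triv (N : Type) [Group N] : Subsingleton N → PolyS N
  | step (N : Type) [Group N] (K : Subgroup N) [K.Normal] : PolyS K → TwoOrSurf (N ⧸ K) → PolyS N

/-- the class contains the outer automorphism groups of the free group of rank two and of the closed oriented
surface groups of genus at least two -/
def HasOut (C : ∀ (G : Type) [Group G], Prop) : Prop :=
  ∀ (S : Type) [Group S], TwoOrSurf S → C (OutG S)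

theorem spread_of {S : Type} [Group S] (h : TwoOrSurf S) : Spread S := by
  rcases h with ⟨⟨e⟩⟩ | ⟨g, hg, ⟨e⟩⟩
  · exact (spread_free 2 le_rfl).equiv e.symm
  · exact (spread_surf g hg).equiv e.symm

theorem oc_of_polyS {C : ∀ (G : Type) [Group G], Prop} (hC : ClosedE C) (hA : HasOut C)
    {N : Type} [Group N] (h : PolyS N) : OC C N := by
  induction h with
  | triv N h =>
    have h1 : Subsingleton (MulAut N) := ⟨fun σ τ => by ext x; exact Subsingleton.elim _ _⟩
    refine OC.base N inferInstance (Subsingleton.elim _ _) ?_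
    exact Pool.Agent.Y430.SS.of_finite hC.base _ inferInstance
  | step N K _ hNK ih => exact OC.step N K ih (spread_of hNK) (hA _ hNK)

theorem quot_out {C : ∀ (G : Type) [Group G], Prop} (hC : ClosedE C) {G : Type} [Group G]
    (N : Subgroup G) [hNn : N.Normal] (h : C (OutG N)) :
    C (G ⧸ (N ⊔ Subgroup.centralizer (N : Set G))) := by
  obtain ⟨f, hf⟩ : ∃ f : G →* OutG N, f = (QuotientGroup.mk' (Inn N)).comp MulAut.conjNormal :=
    ⟨_, rfl⟩
  have hker : f.ker = N ⊔ Subgroup.centralizer (N : Set G) := by
    apply le_antisymm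
    · intro g hg
      have h1 : f g = 1 := hg
      rw [hf] at h1
      have h2 : (MulAut.conjNormal g : MulAut N) ∈ Inn N := (QuotientGroup.eq_one_iff _).1 h1
      obtain ⟨n, hn⟩ := h2
      have h3 : (n : G)⁻¹ * g ∈ Subgroup.centralizer (N : Set G) := by
        rw [← conjNormal_ker, MonoidHom.mem_ker, map_mul, map_inv, MulAut.conjNormal_val, hn,
          inv_mul_cancel]
      have h4 : (n : G) * ((n : G)⁻¹ * g) = g := by group
      rw [← h4]
      exact mul_mem (Subgroup.mem_sup_left n.2) (Subgroup.mem_sup_right h3)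
    · refine sup_le ?_ ?_
      · intro n hn
        rw [MonoidHom.mem_ker, hf]
        exact (QuotientGroup.eq_one_iff _).2 ⟨⟨n, hn⟩, (MulAut.conjNormal_val (h := ⟨n, hn⟩)).symm⟩
      · intro g hg
        rw [← conjNormal_ker, MonoidHom.mem_ker] at hg
        rw [MonoidHom.mem_ker, hf]
        show ((MulAut.conjNormal g : MulAut N) : OutG N) = 1
        rw [hg]
        rfl
  have h3 := hC.base.of_injective _ _ (QuotientGroup.kerLift f) (QuotientGroup.kerLift_injective _) h
  exact hC.base.of_injective _ _ (QuotientGroup.quotientMulEquivOfEq hker).symm.toMonoidHom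
    (QuotientGroup.quotientMulEquivOfEq hker).symm.injective h3

/-- **outer automorphism groups of iterated extensions** -/
theorem result (C : ∀ (G : Type) [Group G], Prop) (hC : ClosedE C) :
    -- 1. one step
    (∀ (N : Type) [Group N] (K : Subgroup N) [K.Normal], Group.FG K → Subgroup.center K = ⊥ →
      Spread (N ⧸ K) → C (OutG K) → C (OutG (N ⧸ K)) → C (OutG N)) ∧
    -- 2. iterated extensions
    (∀ (N : Type) [Group N], OC C N → C (OutG N)) ∧
    (∀ (G : Type) [Group G] (N : Subgroup G) [N.Normal], OC C N →
      C (G ⧸ (N ⊔ Subgroup.centralizer (N : Set G)))) ∧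
    -- 3. iterated extensions of surface groups
    (HasOut C → (∀ (N : Type) [Group N], PolyS N → C (OutG N)) ∧
      ∀ (G : Type) [Group G] (N : Subgroup G) [N.Normal], PolyS N →
        C (G ⧸ (N ⊔ Subgroup.centralizer (N : Set G)))) := by
  refine ⟨?_, fun N _ hN => (oc_out hC hN).2.2, fun G _ N _ hN => quot_out hC N (oc_out hC hN).2.2,
    fun hA => ⟨fun N _ hN => (oc_out hC (oc_of_polyS hC hA hN)).2.2,
      fun G _ N _ hN => quot_out hC N (oc_out hC (oc_of_polyS hC hA hN)).2.2⟩⟩
  intro N _ K _ hK hZ hS h1 h2
  exact (oc_out hC (OC.step N K (OC.base K hK hZ h1) hS h2)).2.2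

end Pool.Agent.Results.MP_98022b_gt.OuterTowers
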