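import Pool.Agent.Helper686_FJ.Plane4

/-!
# Automorphism groups of the affine plane in the Farrell-Jones class

`C` is any class of groups with the closure properties `ClosedE C` which contains the groups `F ⋊ ℤ` for
all free groups `F` and all solvable groups. All this is published for the class of groups which satisfy
the Farrell-Jones conjecture with coefficients and finite wreath products, which implies Q1 for all
torsion-free groups in the class.

Let `K` be a field. `Au K` is the group of automorphisms of the polynomial ring `K[x, y]`, and `Tame K` is
the subgroup generated by the linear automorphisms and by the shears `z ↦ z + p(v₀ y - v₁ x) v`,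
`p(T) ∈ K[T]`, `v ∈ K²`, `z = (x, y)`. By the theorem of Jung and van der Kulk (which is not used)
`Tame K` is equal to `Au K`. For a subgroup `H` of `GL₂(K)` let `PA H` be the group of the tame
automorphisms that fix the origin and have linear part in `H`.

1. `PA H` is in `C` if and only if `H` is in `C`.
2. Let `R` be a domain such that the polynomial ring `R[σ]` embeds in `K`. Then `PA GL₂(R[σ])` is in `C` if and
   only if `GL₂(R)` is in `C`. This group contains all automorphisms of the `R[σ]`-algebra `R[σ][x, y]` which
   fix the origin and are tame over `K`.
3. `PA GL₂(ℤ[σ])` is in `C`.
4. If all finitely generated subrings of `K` are finite, then `Tame K` is in `C`.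

Outline of the proof. By ping-pong on the points of the plane over `K[T]`, the group generated by the
shears with `T² ∣ p` is the free product of the abelian groups `U v`, where `v` runs through the
projective line, and `GL₂(K)` permutes these groups; `PA H` is the semidirect product of this group and
`H`. The mapping tori of abelian groups are solvable, and the theorem on extensions by free products
(`R684`) applies. For (2), a similar argument shows that `GL₂(R[t])` is in `C` if and only if `GL₂(R)` is,
because of the free product decomposition of the kernel of `GL₂(K[t]) → GL₂(K)`; for (3), the group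
`GL₂(ℤ)` has a free subgroup of finite index. For (4), finitely generated groups of automorphisms have
finite orbits on the points over `K`, so that the stabilizer of the origin has finite index.
-/

set_option autoImplicit false

namespace Pool.Agent.Results.MP_98022b_gt.PlaneAutomorphisms

open Pool.Agent.Helper686_FJ Pool.Agent.Y110.FJ

theorem result (C : ∀ (G : Type) [Group G], Prop) (hC : ClosedE C)
    (hF : ∀ (X : Type) (α : MulAut (FreeGroup X)),
      C (FreeGroup X ⋊[zpowersHom (MulAut (FreeGroup X)) α] Multiplicative ℤ))
    (hS : ∀ (S : Type) [Group S], Group.IsSolvable S → C S) :
    (∀ (K : Type) [Field K] (H : Subgroup (GL (Fin 2) K)), C (PA H) ↔ C H) ∧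
    (∀ (σ R K : Type) [CommRing R] [IsDomain R] [Field K] (j : MvPolynomial σ R →+* K),
      Function.Injective j →
        (C (PA (Matrix.GeneralLinearGroup.map (n := Fin 2) j).range) ↔ C (GL (Fin 2) R))) ∧
    (∀ (σ K : Type) [Field K] (j : MvPolynomial σ ℤ →+* K), Function.Injective j →
      C (PA (Matrix.GeneralLinearGroup.map (n := Fin 2) j).range)) ∧
    ∀ (K : Type) [Field K], (∀ s : Finset K, (Subring.closure (s : Set K) : Set K).Finite) →
      C (Tame K) := by
  refine ⟨?_, ?_, ?_, ?_⟩
  · intro K _ H
    exact PA_iff hC hF hS H
  · intro σ R K _ _ _ j hj
    exact PA_mv hC hF hS σ R j hj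
  · intro σ K _ j hj
    exact (PA_mv hC hF hS σ ℤ j hj).2 (GLP.g2_int hC hF hS)
  · intro K _ h
    exact tame_lf hC hF hS h

end Pool.Agent.Results.MP_98022b_gt.PlaneAutomorphisms
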