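import Pool.Agent.H694.TR.Fc

/-!
# Groups acting on trees with stabilizers which are abelian over a Farrell–Jones group

`C` is any class of groups with the closure properties `ClosedE C` which contains the groups `F ⋊ ℤ`,
`F` free, and the solvable groups. All this is published for the class of the groups which satisfy the
K- and L-theoretic Farrell–Jones conjecture with coefficients and finite wreath products.

(1) Let `G` act on a tree without inversions, and let `π : G → Q` be a homomorphism to a group in `C`
such that the kernel of `π` meets each vertex stabilizer in an abelian group. Then `G` is in `C`.

(2) Let `M` be a normal subgroup of `G` with `G ⧸ M` in `C`, and let `M` (not `G`) act on a tree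
without inversions with abelian vertex stabilizers. If the subgroup of `M` generated by the stabilizers
is normal in `G`, then `G` is in `C`.

(3) Let `G` act on a tree without inversions, and let `N = vcen G V` be the normal subgroup of the
elements which centralize a subgroup of finite index of each vertex stabilizer. Suppose that `N` meets
the vertex stabilizers in torsion-free groups. If `G ⧸ N` is in `C`, then `G` is in `C`. If the vertex
stabilizers are commensurable to each other, `G ⧸ N` is the image of `G` in the group of their abstract
commensurations.

For `Q = 1` the assertion (1) is the theorem of Gandini, Meinert and Rüping on graphs of abelian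
groups.

Outline of the proof. Let `M` act on a tree with abelian stabilizers, and let `M₀` be the subgroup
generated by the stabilizers. The edge path of the tree from `v` to `v₀` gives a word in the free group
on the classes of oriented edges, which is reduced if the path is a shortest one modulo `M₀`. It follows
that `M ⧸ M₀` is free and that the quotient of the tree by `M₀` is a tree, so that a character of a
stabilizer with values in `ℚ/ℤ` extends, step by step, to a compatible family of characters of all
stabilizers, invariant under `M₀`. The family comes from a character of `M₀` (a cocycle on the vertices
which is trivial on the stabilizers of the edges is a coboundary up to a homomorphism). So `M₀'`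
meets the stabilizers trivially, and it is free. The series `M₀' ≤ M₀ ≤ M` has a free, an abelian and a
free factor.
-/

set_option autoImplicit false

namespace Pool.Agent.Results.MP_98022b_gt.TreeActions

open Pool.Agent.Y110.FJ Pool.Agent.R684.FP Pool.Agent.H694.TR

theorem result (C : ∀ (G : Type) [Group G], Prop) (hC : ClosedE C) (hF : FbC C)
    (hS : ∀ (S : Type) [Group S], Group.IsSolvable S → C S) :
    (∀ (G Q V : Type) [Group G] [Group Q] [MulAction G V] (T : SimpleGraph V), TreeAct G V T →
      ∀ π : G →* Q, C Q →
        (∀ (v : V) (x y : G), x • v = v → y • v = v → π x = 1 → π y = 1 → x * y = y * x) → C G) ∧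
    (∀ (G V : Type) [Group G] (M : Subgroup G) [M.Normal] [MulAction M V] (T : SimpleGraph V),
      TreeAct M V T → (∀ (v : V) (x y : M), x • v = v → y • v = v → x * y = y * x) →
        ((⨆ v : V, MulAction.stabilizer M v).map M.subtype).Normal → C (G ⧸ M) → C G) ∧
    (∀ (G V : Type) [Group G] [MulAction G V] (T : SimpleGraph V), TreeAct G V T →
      (∀ (v : V) (x : G), x • v = v → x ∈ vcen G V → IsOfFinOrder x → x = 1) →
        C (G ⧸ vcen G V) → C G) := by
  refine ⟨?_, ?_, ?_⟩
  · intro G Q V _ _ _ T hA π hQ hab
    exact act_tree hC hF hS hA π hQ hab
  · intro G V _ M _ _ T hA hab hn hQ
    exact ext_tree hC hF hS M hA (fun w x hx y hy => hab w x y hx hy) hn hQ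
  · intro G V _ _ T hA ht hQ
    exact comm_tree hC hF hS hA ht hQ

end Pool.Agent.Results.MP_98022b_gt.TreeActions
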